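import Pool.Agent.MWI.StmtsT

/-!
# Squad MWI, block T, row KQA (MP_23468a_al): a bad main block gives the scheme
-/

set_option autoImplicit false

namespace Pool.Agent.MWI.H77

open Pool.Agent.Helper14_MV Pool.Agent.Helper2_MV Pool.Agent.MWF Pool.Agent.MWI

theorem pA_fil (a b : ℕ → ℕ) (P : List ℕ) : (pA a b P).filter it = ts P := by
  induction P with
  | nil => rfl
  | cons i P ih =>
    have e : pA a b (i :: P) = (List.replicate (a i) 0 ++ (3 * i + 2) ::
      (List.replicate (b i) 0 ++ [3 * i + 1])) ++ pA a b P := rfl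
    rw [e, List.filter_append, ih, List.filter_append, List.filter_cons, List.filter_append]
    have h0 : ∀ k : ℕ, (List.replicate k 0).filter it = [] := by
      intro k
      rw [List.filter_eq_nil_iff]
      intro x hx
      rw [(List.mem_replicate.1 hx).2]
      simp [it]
    have h2 : it (3 * i + 2) = false := by
      simp only [it, decide_eq_false_iff_not]
      omega
    have h1 : it (3 * i + 1) = true := by
      simp only [it, decide_eq_true_eq]
      omega
    rw [h0, h0, h2, List.filter_cons, h1]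
    rfl

theorem pC_fil (a b : ℕ → ℕ) (Q : List ℕ) : (pC a b Q).filter it = ts Q := by
  induction Q with
  | nil => rfl
  | cons i Q ih =>
    have e : pC a b (i :: Q) = ((3 * i + 1) :: (List.replicate (a i) 0 ++ (3 * i + 2) ::
      List.replicate (b i) 0)) ++ pC a b Q := rfl
    rw [e, List.filter_append, ih, List.filter_cons, List.filter_append, List.filter_cons]
    have h0 : ∀ k : ℕ, (List.replicate k 0).filter it = [] := by
      intro k
      rw [List.filter_eq_nil_iff]
      intro x hx
      rw [(List.mem_replicate.1 hx).2]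
      simp [it]
    have h2 : it (3 * i + 2) = false := by
      simp only [it, decide_eq_false_iff_not]
      omega
    have h1 : it (3 * i + 1) = true := by
      simp only [it, decide_eq_true_eq]
      omega
    rw [h0, h0, h2, h1]
    rfl

theorem pA_end (a b : ℕ → ℕ) (P : List ℕ) (l : List ℕ) (x : ℕ) (h : pA a b P = l ++ [x]) :
    x % 3 = 1 := by
  rcases List.eq_nil_or_concat P with rfl | ⟨P', i, rfl⟩
  · have e : pA a b [] = [] := rfl
    rw [e] at h
    simp at h
  · have e : pA a b (P' ++ [i]) = (pA a b P' ++ (List.replicate (a i) 0 ++ (3 * i + 2) ::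
      List.replicate (b i) 0)) ++ [3 * i + 1] := by
      simp [pA, List.flatMap_append]
    have h' : pA a b (P' ++ [i]) = l ++ [x] := by simpa using h
    rw [e] at h'
    have h2 := (List.append_inj' h' rfl).2
    have h3 : 3 * i + 1 = x := by simpa using h2
    omega

theorem pC_beg (a b : ℕ → ℕ) (Q : List ℕ) (x : ℕ) (l : List ℕ) (h : pC a b Q = x :: l) :
    x % 3 = 1 := by
  cases Q with
  | nil =>
    have e : pC a b [] = [] := rfl
    rw [e] at h
    cases h
  | cons i Q =>
    have e : pC a b (i :: Q) = ((3 * i + 1) :: (List.replicate (a i) 0 ++ (3 * i + 2) ::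
      List.replicate (b i) 0)) ++ pC a b Q := rfl
    rw [e, List.cons_append] at h
    have h1 : 3 * i + 1 = x := (List.cons.inj h).1
    omega

theorem pA_mem (a b : ℕ → ℕ) (P : List ℕ) (i : ℕ) (h : i ∈ P) : 3 * i + 2 ∈ pA a b P := by
  rw [pA, List.mem_flatMap]
  exact ⟨i, h, by simp⟩

theorem pC_mem (a b : ℕ → ℕ) (Q : List ℕ) (i : ℕ) (h : i ∈ Q) : 3 * i + 2 ∈ pC a b Q := by
  rw [pC, List.mem_flatMap]
  exact ⟨i, h, by simp⟩

theorem spl (A1 A2 B1 B2 : List ℕ) (h : A1 ++ B1 = A2 ++ B2) (hf : A1.filter it = A2.filter it)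
    (h1 : ∀ l a, A1 = l ++ [a] → a % 3 = 1) (h2 : ∀ l a, A2 = l ++ [a] → a % 3 = 1) :
    A1 = A2 := by
  have key : ∀ X s : List ℕ, (X ++ s).filter it = X.filter it →
      (∀ l a, X ++ s = l ++ [a] → a % 3 = 1) → s = [] := by
    intro X s hX hl
    rcases List.eq_nil_or_concat s with rfl | ⟨s', y, rfl⟩
    · rfl
    · exfalso
      have h3 : y % 3 = 1 := hl (X ++ s') y (by simp)
      rw [List.filter_append] at hX
      have h4 : (s'.concat y).filter it = [] := by
        have := congrArg List.length hX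
        rw [List.length_append] at this
        exact List.length_eq_zero_iff.1 (by omega)
      rw [List.filter_eq_nil_iff] at h4
      exact h4 y (by simp) (by simp [it, h3])
  rcases List.append_eq_append_iff.1 h with ⟨s, hs, _⟩ | ⟨s, hs, _⟩
  · have := key A1 s (by rw [← hs, hf]) (by rw [← hs]; exact h2)
    rw [hs, this, List.append_nil]
  · have := key A2 s (by rw [← hs, hf]) (by rw [← hs]; exact h1)
    rw [hs, this, List.append_nil]

theorem spr (A1 A2 B1 B2 : List ℕ) (h : A1 ++ B1 = A2 ++ B2) (hf : B1.filter it = B2.filter it)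
    (h1 : ∀ a l, B1 = a :: l → a % 3 = 1) (h2 : ∀ a l, B2 = a :: l → a % 3 = 1) :
    A1 = A2 := by
  have key : ∀ s X : List ℕ, (s ++ X).filter it = X.filter it →
      (∀ a l, s ++ X = a :: l → a % 3 = 1) → s = [] := by
    intro s X hX hl
    cases s with
    | nil => rfl
    | cons y s' =>
      exfalso
      have h3 : y % 3 = 1 := hl y (s' ++ X) (by simp)
      rw [List.filter_append] at hX
      have h4 : (y :: s').filter it = [] := by
        have := congrArg List.length hX
        rw [List.length_append] at this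
        exact List.length_eq_zero_iff.1 (by omega)
      rw [List.filter_eq_nil_iff] at h4
      exact h4 y (by simp) (by simp [it, h3])
  rcases List.append_eq_append_iff.1 h with ⟨s, hs, hb⟩ | ⟨s, hs, hb⟩
  · have := key s B2 (by rw [← hb, hf]) (by rw [← hb]; exact h1)
    rw [hs, this, List.append_nil]
  · have := key s B1 (by rw [← hb, hf]) (by rw [← hb]; exact h2)
    rw [hs, this, List.append_nil]

theorem kqa (h1 : WdcStmt) (h2 : GatStmt) (h3 : GmnStmt) (h4 : PsiStmt) (h5 : OurStmt)
    (h6 : PrmStmt) : KqaStmt := by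
  intro n β hT P Q m hm hP hF w hw hB
  obtain ⟨a, b, M, h, hh, hwe, hMf⟩ := h1 β hT.iso P Q m hP w hw
  obtain ⟨A, M', C, hwA, hA1, hC1, _, hA2, hC2, hM'⟩ := hB
  have eq0 : pA a b P ++ (M ++ pC a b Q) = A ++ (M' ++ C) := by
    rw [← hwA, hwe]
    rfl
  have eA : pA a b P = A := spl _ _ _ _ eq0 (by rw [pA_fil, hA1]) (pA_end a b P) hA2
  have eq1 : M ++ pC a b Q = M' ++ C := by
    rw [eA] at eq0
    exact List.append_cancel_left eq0
  have eM : M = M' := spr _ _ _ _ eq1 (by rw [pC_fil, hC1]) (pC_beg a b Q) hC2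
  have hMne : M ≠ 0 :: (zz h ++ [0]) := by
    rw [eM]
    exact hM' h
  obtain ⟨g1, g2, k, hg, hr⟩ := h3 n β hT m h M (pA a b P) (pC a b Q) hm hF hh hMf hMne (by
    intro i hi
    have hi2 : i ∈ P ++ Q := hP.mem_iff.2 (List.mem_range.2 hi)
    rcases List.mem_append.1 hi2 with hi3 | hi3
    · exact Or.inl (pA_mem a b P i hi3)
    · exact Or.inr (pC_mem a b Q i hi3))
  have hgp : (g1 ++ g2).Perm (List.range m) := by
    rw [← hg]
    exact hh
  obtain ⟨a', b', hz, _, hr2⟩ := h2 β hT.k1 a b P (zz g1 ++ (List.replicate k 0 ++ zz g2)) Q (by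
    intro i hi
    have hi2 : i ∈ g1 ++ g2 := hgp.mem_iff.2 (hP.mem_iff.1 hi)
    rcases List.mem_append.1 hi2 with hi3 | hi3
    · exact List.mem_append_left _ (List.mem_map_of_mem hi3)
    · exact List.mem_append_right _ (List.mem_append_right _ (List.mem_map_of_mem hi3)))
  have hr3 : RR β (ww P Q (List.range m))
      (bb a' b' P (zz g1 ++ (List.replicate k 0 ++ zz g2)) Q) := by
    rw [hwe] at hw
    exact rtr (rtr hw hr) hr2
  exact h6 β P Q (g1 ++ g2) m hP
    (h5 β hT.k1 P Q g1 g2 m hP hgp (h4 β a' b' P Q g1 g2 m k hP hgp hz hr3))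

end Pool.Agent.MWI.H77
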